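import Pool.Agent.R596.CcMain

/-!
# Notions of forcing with ccc₃ do not collapse `ω₁`, in ZF

Let `M` be a transitive model of ZF (a set or a class, without any choice), `(P, Le)` a notion of
forcing in `M` that satisfies ccc₃ in `M`, and `κ` the first uncountable ordinal of `M`. Then `κ`
is not countable in `M[G]` for any `M`-generic filter `G`, and no condition forces that a name in
`M` is an injection of `κ` into the natural numbers. The definitions are in
`Pool.Agent.R596.CcDefs`.
-/

set_option autoImplicit false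

namespace Pool.Agent.Results.MP_6e04fb_lc.PreservesOmega1

open Pool.Agent.W868 Pool.Agent.R596Cc

theorem result (M : Set ZFSet.{0}) (hM : IsZF M) (P Le κ : ZFSet.{0}) (hP : IsForcing M P Le)
    (hc : CCC3 M P Le) (hκ : IsOmega1 M κ) :
    ¬ Collapses M P Le κ ∧ ∀ p₀ ∈ P, ∀ T, ¬ ForcesInj M P Le κ p₀ T :=
  ⟨Pool.Agent.R596.CC.main hM hP hc hκ, fun _ hp₀ _ => Pool.Agent.R596.CC.main' hM hP hc hκ hp₀⟩

end Pool.Agent.Results.MP_6e04fb_lc.PreservesOmega1
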